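import Pool.Agent.H95.UC.Mirror
import Pool.Agent.H45.Corr.Double

/-!
# Sufficient conditions by cluster flips, and the single exchange `V = (U \ {b}) ∪ {c}`
-/

namespace Pool.Agent.H95.UC

open Pool.Agent.H45.Corr

/-- The constraints describing `EN X N`. -/
def SN (X : Type) [PartialOrder X] (N : ℕ) : Set (Option X × Option X × ℤ) :=
  {t | (∃ a b : X, a ≤ b ∧ t = (some a, some b, 0)) ∨ (∃ a : X, t = (none, some a, 0)) ∨
    (∃ a : X, t = (some a, none, (N : ℤ)))}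

theorem EN_eq_DC (X : Type) [PartialOrder X] (N : ℕ) : EN X N = DC (SN X N) := by
  ext f
  constructor
  · rintro ⟨h1, h2⟩ i j c (⟨a, b, hab, h⟩ | ⟨a, h⟩ | ⟨a, h⟩)
    · simp only [Prod.mk.injEq] at h
      obtain ⟨rfl, rfl, rfl⟩ := h
      simpa using h1 a b hab
    · simp only [Prod.mk.injEq] at h
      obtain ⟨rfl, rfl, rfl⟩ := h
      simpa using (h2 a).1
    · simp only [Prod.mk.injEq] at h
      obtain ⟨rfl, rfl, rfl⟩ := h
      exact (h2 a).2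
  · intro h
    refine ⟨fun a b hab => ?_, fun a => ⟨?_, ?_⟩⟩
    · simpa using h (some a) (some b) 0 (Or.inl ⟨a, b, hab, rfl⟩)
    · simpa using h none (some a) 0 (Or.inr (Or.inl ⟨a, rfl⟩))
    · exact h (some a) none N (Or.inr (Or.inr ⟨a, rfl⟩))

theorem EN_finite' (X : Type) [PartialOrder X] [Finite X] [Nonempty X] (N : ℕ) (o : Option X) :
    {f | f ∈ DC (SN X N) ∧ f o = 0}.Finite := by
  classical
  have := Fintype.ofFinite X
  rw [← EN_eq_DC]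
  rcases o with _ | x
  · refine (Set.finite_Icc (fun _ : Option X => (0 : ℤ) - N) (fun _ => 0 + N)).subset ?_
    rintro f ⟨hf, hc⟩
    refine ⟨fun i => ?_, fun i => ?_⟩
    · rcases i with _ | a
      · dsimp only; omega
      · have := hf.2 a; dsimp only; omega
    · rcases i with _ | a
      · dsimp only; omega
      · have := hf.2 a; dsimp only; omega
  · exact EN_finite x

/-- Upper witness condition at `u`: in all `b ∈ B` the element `u` is `y` or above `y`, and for all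
`b ∈ B`, `c ∈ C` some `z` is above `u` in `b` and below `u` and `x` in `c`. -/
def UpW {T : Type} (x y u : T) (B C : Set (LinOrd T)) : Prop :=
  ∀ b ∈ B, (y = u ∨ b.1 y u) ∧ ∀ c ∈ C, ∃ z, b.1 u z ∧ c.1 z u ∧ c.1 z x

/-- Lower witness condition at `u`: in all `b ∈ B` the element `u` is `x` or below `x`, and for all
`b ∈ B`, `c ∈ C` some `z` is below `u` in `b` and above `u` and `y` in `c`. -/
def DnW {T : Type} (x y u : T) (B C : Set (LinOrd T)) : Prop :=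
  ∀ b ∈ B, (u = x ∨ b.1 u x) ∧ ∀ c ∈ C, ∃ z, b.1 z u ∧ c.1 u z ∧ c.1 y z

/-- The relation on `T` of a labelling of `X`. -/
def Typ {T X : Type} (ι : T ↪ X) (f : Option X → ℤ) : T → T → Prop :=
  fun s t => f (some (ι s)) < f (some (ι t))

/-- The labellings of type in `W`. -/
def LabOf {T X : Type} (ι : T ↪ X) (W : Set (LinOrd T)) : Set (Option X → ℤ) :=
  {f | ∃ L ∈ W, L.1 = Typ ι f}

theorem LabOf_inv {T X : Type} (ι : T ↪ X) (W : Set (LinOrd T)) : Inv (LabOf ι W) := by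
  rintro f a ⟨L, hL, h⟩
  refine ⟨L, hL, ?_⟩
  rw [h]
  funext s t
  unfold Typ
  simp

theorem UpW.lab {T X : Type} {x y u : T} {B C : Set (LinOrd T)} (h : UpW x y u B C)
    (ι : T ↪ X) : UpL (some (ι x)) (some (ι y)) (some (ι u)) (LabOf ι B) (LabOf ι C) := by
  rintro p ⟨b, hb, hbp⟩ hxy
  obtain ⟨h1, h2⟩ := h b hb
  refine ⟨?_, ?_⟩
  · rcases h1 with h1 | h1
    · exact Or.inl (by rw [h1])
    · rw [hbp] at h1; exact Or.inr h1
  · rintro q ⟨c, hc, hcq⟩ hyx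
    obtain ⟨z, a1, a2, a3⟩ := h2 c hc
    rw [hbp] at a1
    rw [hcq] at a2 a3
    exact ⟨some (ι z), a1, a2, a3⟩

theorem DnW.lab {T X : Type} {x y u : T} {B C : Set (LinOrd T)} (h : DnW x y u B C)
    (ι : T ↪ X) : DnL (some (ι x)) (some (ι y)) (some (ι u)) (LabOf ι B) (LabOf ι C) := by
  rintro p ⟨b, hb, hbp⟩ hxy
  obtain ⟨h1, h2⟩ := h b hb
  refine ⟨?_, ?_⟩
  · rcases h1 with h1 | h1
    · exact Or.inl (by rw [h1])
    · rw [hbp] at h1; exact Or.inr h1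
  · rintro q ⟨c, hc, hcq⟩ hyx
    obtain ⟨z, a1, a2, a3⟩ := h2 c hc
    rw [hbp] at a1
    rw [hcq] at a2 a3
    exact ⟨some (ι z), a1, a2, a3⟩

/-- **Flip theorem**: `U = {x < y}`, `V` arbitrary, `B = U \ V`, `C = V \ U`. -/
theorem flipTheorem {T : Type} {x y : T} (hxy : x ≠ y) {V : Set (LinOrd T)}
    (h1 : (∃ u, UpW x y u {b | b.1 x y ∧ b ∉ V} {c | c.1 y x ∧ c ∈ V}) ∨
      (∃ u, DnW x y u {b | b.1 x y ∧ b ∉ V} {c | c.1 y x ∧ c ∈ V}))
    (h2 : (∃ v, UpW y x v {c | c.1 y x ∧ c ∈ V} {b | b.1 x y ∧ b ∉ V}) ∨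
      (∃ v, DnW y x v {c | c.1 y x ∧ c ∈ V} {b | b.1 x y ∧ b ∉ V})) :
    UnivCorr {L | L.1 x y} V := by
  intro X _ _ ι
  classical
  have := Fintype.ofFinite X
  have : Nonempty X := ⟨ι x⟩
  apply pr_of_product
  set B : Set (LinOrd T) := {b | b.1 x y ∧ b ∉ V} with hB
  set C : Set (LinOrd T) := {c | c.1 y x ∧ c ∈ V} with hC
  set PB : (X → X → Prop) → Prop := fun r => ∃ L ∈ B, L.1 = fun s t => r (ι s) (ι t) with hPB
  set PC : (X → X → Prop) → Prop := fun r => ∃ L ∈ C, L.1 = fun s t => r (ι s) (ι t) with hPC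
  -- the inequality for labellings
  have lab : ∀ N : ℕ, (mon X (N + 1) (fun r => r (ι x) (ι y) ∧ PB r)).ncard
      * (mon X (N + 1) (fun r => r (ι y) (ι x) ∧ PC r)).ncard
      ≤ (mon X (N + 1) (fun r => r (ι x) (ι y) ∧ ¬ PB r)).ncard
      * (mon X (N + 1) (fun r => r (ι y) (ι x) ∧ ¬ PC r)).ncard := by
    intro N
    have key := total (S := SN X N) (x := some (ι x)) (y := some (ι y)) (B := LabOf ι B)
      (C := LabOf ι C) (EN_finite' X N) (LabOf_inv ι B) (LabOf_inv ι C)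
      (by
        rcases h1 with ⟨u, h⟩ | ⟨u, h⟩
        · exact Or.inl ⟨_, h.lab ι⟩
        · exact Or.inr ⟨_, h.lab ι⟩)
      (by
        rcases h2 with ⟨u, h⟩ | ⟨u, h⟩
        · exact Or.inl ⟨_, h.lab ι⟩
        · exact Or.inr ⟨_, h.lab ι⟩)
    have conv : ∀ (a b : X) (P : (X → X → Prop) → Prop),
        (mon X (N + 1) (fun r => r a b ∧ P r)).ncard
          = {f | f ∈ DC (SN X N) ∧ f (some (ι x)) = 0 ∧ f (some a) < f (some b) ∧
            P (fun s t => f (some s) < f (some t))}.ncard := by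
      intro a b P
      rw [← labellings_ncard (ι x), ← EN_eq_DC]
    rw [conv, conv, conv, conv]
    exact key
  have key := limit_ineq (Fintype.card X) (eP X (fun r => r (ι x) (ι y) ∧ ¬ PB r))
    (eP X (fun r => r (ι y) (ι x) ∧ PC r)) (eP X (fun r => r (ι y) (ι x) ∧ ¬ PC r))
    (eP X (fun r => r (ι x) (ι y) ∧ PB r)) ?_
  · have l1 : numExts X ι ({L | L.1 x y} \ V) ≤ eP X (fun r => r (ι x) (ι y) ∧ PB r) := by
      refine Set.ncard_le_ncard (fun L hL => ⟨hL.1, hL.2.1, L.restrict ι, hL.2, rfl⟩)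
        (Set.toFinite _)
    have l2 : numExts X ι (V \ {L | L.1 x y}) ≤ eP X (fun r => r (ι y) (ι x) ∧ PC r) := by
      refine Set.ncard_le_ncard (fun L hL => ?_) (Set.toFinite _)
      have hyx : (L.restrict ι).1 y x := by
        by_contra hcon
        exact hxy ((L.restrict ι).2.trichotomous x y hL.2.2 hcon)
      exact ⟨hL.1, hyx, L.restrict ι, ⟨hyx, hL.2.1⟩, rfl⟩
    have l3 : eP X (fun r => r (ι x) (ι y) ∧ ¬ PB r) ≤ numExts X ι ({L | L.1 x y} ∩ V) := by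
      refine Set.ncard_le_ncard ?_ (Set.toFinite _)
      rintro L ⟨h3, h4, h5⟩
      refine ⟨h3, h4, ?_⟩
      by_contra hV
      exact h5 ⟨L.restrict ι, ⟨h4, hV⟩, rfl⟩
    have l4 : eP X (fun r => r (ι y) (ι x) ∧ ¬ PC r) ≤ numExts X ι ({L | L.1 x y} ∪ V)ᶜ := by
      refine Set.ncard_le_ncard ?_ (Set.toFinite _)
      rintro L ⟨h3, h4, h5⟩
      refine ⟨h3, ?_⟩
      rintro (h6 | h6)
      · exact L.2.irrefl _ (L.2.trans _ _ _ h4 h6)
      · exact h5 ⟨L.restrict ι, ⟨h4, h6⟩, rfl⟩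
    calc numExts X ι ({L | L.1 x y} \ V) * numExts X ι (V \ {L | L.1 x y}) ≤ _ :=
          Nat.mul_le_mul l1 l2
      _ ≤ _ := key
      _ ≤ _ := Nat.mul_le_mul l3 l4
  · intro M hM
    have hM0 : 0 < M := lt_of_lt_of_le (Fintype.card_pos_iff.2 ⟨ι x⟩) hM
    obtain ⟨N, rfl⟩ : ∃ N, M = N + 1 := ⟨M - 1, by omega⟩
    calc _ ≤ (mon X (N + 1) (fun r => r (ι x) (ι y) ∧ PB r)).ncard
        * (mon X (N + 1) (fun r => r (ι y) (ι x) ∧ PC r)).ncard :=
          Nat.mul_le_mul (mon_lower _ _) (mon_lower _ _)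
      _ ≤ _ := lab N
      _ ≤ _ := Nat.mul_le_mul (mon_upper _ _) (mon_upper _ _)

/-- Reversed triple: some `z` with `z <_b x <_b y`, `y <_c x <_c z` or `x <_b y <_b z`,
`z <_c y <_c x`. -/
def RT {T : Type} (x y : T) (b c : LinOrd T) : Prop :=
  ∃ z, (c.1 x z ∧ b.1 z x) ∨ (c.1 z y ∧ b.1 y z)

/-- Some `z` lies between `y` and `x` in `c` and, together with some `u` which lies between `z` and
the pair `x, y` in `b`, is in the opposite order in `c`. -/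
def P1 {T : Type} (x y : T) (b c : LinOrd T) : Prop :=
  ∃ z u, c.1 y z ∧ c.1 z x ∧ ((b.1 y u ∧ b.1 u z ∧ c.1 z u) ∨ (b.1 z u ∧ b.1 u x ∧ c.1 u z))

/-- **Single exchange, sufficiency.** -/
theorem single_suff {T : Type} {x y : T} {b c : LinOrd T} (hb : b.1 x y)
    (hc : c.1 y x) (h : RT x y b c ∨ (P1 x y b c ∧ P1 y x c b)) :
    UnivCorr {L | L.1 x y} (({L | L.1 x y} \ {b}) ∪ {c}) := by
  have hxy : x ≠ y := by
    rintro rfl; exact b.2.irrefl _ hb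
  have hbc : b ≠ c := by
    rintro rfl; exact b.2.irrefl _ (b.2.trans _ _ _ hb hc)
  have eB : {L : LinOrd T | L.1 x y ∧ L ∉ (({L | L.1 x y} \ {b}) ∪ {c} : Set (LinOrd T))}
      = {b} := by
    ext L
    simp only [Set.mem_ofPred_eq, Set.mem_union, Set.mem_sdiff, Set.mem_singleton_iff, not_or,
      not_and, not_not]
    constructor
    · rintro ⟨h1, h2, _⟩; exact h2 h1
    · rintro rfl; exact ⟨hb, fun _ => rfl, hbc⟩
  have eC : {L : LinOrd T | L.1 y x ∧ L ∈ (({L | L.1 x y} \ {b}) ∪ {c} : Set (LinOrd T))}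
      = {c} := by
    ext L
    simp only [Set.mem_ofPred_eq, Set.mem_union, Set.mem_sdiff, Set.mem_singleton_iff]
    constructor
    · rintro ⟨h1, ⟨h2, _⟩ | h2⟩
      · exact absurd (L.2.trans _ _ _ h1 h2) (L.2.irrefl _)
      · exact h2
    · rintro rfl; exact ⟨hc, Or.inr rfl⟩
  refine flipTheorem hxy ?_ ?_
  · rw [eB, eC]
    rcases h with ⟨z, ⟨h1, h2⟩ | ⟨h1, h2⟩⟩ | ⟨⟨z, u, h1, h2, ⟨h3, h4, h5⟩ | ⟨h3, h4, h5⟩⟩, _⟩
    · refine Or.inr ⟨x, ?_⟩
      rintro _ rfl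
      refine ⟨Or.inl rfl, ?_⟩
      rintro c' rfl
      exact ⟨z, h2, h1, c'.2.trans _ _ _ hc h1⟩
    · refine Or.inl ⟨y, ?_⟩
      rintro _ rfl
      refine ⟨Or.inl rfl, ?_⟩
      rintro c' rfl
      exact ⟨z, h2, h1, c'.2.trans _ _ _ h1 hc⟩
    · refine Or.inl ⟨u, ?_⟩
      rintro _ rfl
      refine ⟨Or.inr h3, ?_⟩
      rintro _ rfl
      exact ⟨z, h4, h5, h2⟩
    · refine Or.inr ⟨u, ?_⟩
      rintro _ rfl
      refine ⟨Or.inr h4, ?_⟩
      rintro _ rfl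
      exact ⟨z, h3, h5, h1⟩
  · rw [eB, eC]
    rcases h with ⟨z, ⟨h1, h2⟩ | ⟨h1, h2⟩⟩ | ⟨_, ⟨z, u, h1, h2, ⟨h3, h4, h5⟩ | ⟨h3, h4, h5⟩⟩⟩
    · refine Or.inl ⟨x, ?_⟩
      rintro _ rfl
      refine ⟨Or.inl rfl, ?_⟩
      rintro b' rfl
      exact ⟨z, h1, h2, b'.2.trans _ _ _ h2 hb⟩
    · refine Or.inr ⟨y, ?_⟩
      rintro _ rfl
      refine ⟨Or.inl rfl, ?_⟩
      rintro b' rfl
      exact ⟨z, h1, h2, b'.2.trans _ _ _ hb h2⟩
    · refine Or.inl ⟨u, ?_⟩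
      rintro _ rfl
      refine ⟨Or.inr h3, ?_⟩
      rintro _ rfl
      exact ⟨z, h4, h5, h2⟩
    · refine Or.inr ⟨u, ?_⟩
      rintro _ rfl
      refine ⟨Or.inr h4, ?_⟩
      rintro _ rfl
      exact ⟨z, h3, h5, h1⟩

end Pool.Agent.H95.UC
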