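import Pool.Agent.H45.Corr.Count

/-!
# Cluster flips for pairs of solutions of a system of difference constraints

`DC S` is the set of all `f : I → ℤ` with `f i ≤ f j + c` for all `(i, j, c) ∈ S`.  For a pair
`(p, q)` of such functions and a level `l` the pair may be swapped on a union of clusters:
`p' = q + l`, `q' = p - l`.
-/

namespace Pool.Agent.H95.UC

variable {I : Type}

/-- Solutions of a system of difference constraints. -/
def DC (S : Set (I × I × ℤ)) : Set (I → ℤ) := {f | ∀ i j c, (i, j, c) ∈ S → f i ≤ f j + c}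

/-- Swapping exactly one of `i`, `j` at level `l` violates a constraint. -/
def Bond (S : Set (I × I × ℤ)) (l : ℤ) (p q : I → ℤ) (i j : I) : Prop :=
  ∃ c, ((i, j, c) ∈ S ∧ ¬ (q i + l ≤ p j + c ∧ p i ≤ q j + l + c)) ∨
    ((j, i, c) ∈ S ∧ ¬ (q j + l ≤ p i + c ∧ p j ≤ q i + l + c))

theorem Bond.symm {S : Set (I × I × ℤ)} {l : ℤ} {p q : I → ℤ} {i j : I} (h : Bond S l p q i j) :
    Bond S l p q j i := by
  obtain ⟨c, h | h⟩ := h
  · exact ⟨c, Or.inr h⟩
  · exact ⟨c, Or.inl h⟩

/-- The free sites: those not connected with `x` or `u`. -/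
def Free (S : Set (I × I × ℤ)) (l : ℤ) (x u : I) (p q : I → ℤ) : Set I :=
  {i | ¬ Relation.ReflTransGen (Bond S l p q) x i ∧ ¬ Relation.ReflTransGen (Bond S l p q) u i}

open Classical in
/-- The first function after the swap on `A`. -/
noncomputable def swP (A : Set I) (l : ℤ) (p q : I → ℤ) : I → ℤ :=
  fun i => if i ∈ A then q i + l else p i

open Classical in
/-- The second function after the swap on `A`. -/
noncomputable def swQ (A : Set I) (l : ℤ) (p q : I → ℤ) : I → ℤ :=
  fun i => if i ∈ A then p i - l else q i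

theorem sw_sum (A : Set I) (l : ℤ) (p q : I → ℤ) (i : I) :
    swP A l p q i + swQ A l p q i = p i + q i := by
  unfold swP swQ; split_ifs <;> ring

theorem sw_sum' (A : Set I) (l : ℤ) (p q : I → ℤ) :
    swP A l p q + swQ A l p q = p + q := by
  funext i; exact sw_sum A l p q i

variable {S : Set (I × I × ℤ)} {l : ℤ} {x u : I} {p q : I → ℤ}

theorem free_bond {i j : I} (hi : i ∈ Free S l x u p q) (hj : j ∉ Free S l x u p q) :
    ¬ Bond S l p q i j := by
  intro h
  apply hj
  refine ⟨fun h1 => hi.1 (h1.tail h.symm), fun h1 => hi.2 (h1.tail h.symm)⟩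

theorem free_bond' {i j : I} (hi : i ∉ Free S l x u p q) (hj : j ∈ Free S l x u p q) :
    ¬ Bond S l p q i j := fun h => free_bond hj hi h.symm

theorem swP_mem (hp : p ∈ DC S) (hq : q ∈ DC S) : swP (Free S l x u p q) l p q ∈ DC S := by
  intro i j c hc
  unfold swP
  have h1 := hp i j c hc
  have h2 := hq i j c hc
  by_cases hi : i ∈ Free S l x u p q <;> by_cases hj : j ∈ Free S l x u p q
  · rw [if_pos hi, if_pos hj]; omega
  · rw [if_pos hi, if_neg hj]
    by_contra hcon
    exact free_bond hi hj ⟨c, Or.inl ⟨hc, fun h => hcon h.1⟩⟩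
  · rw [if_neg hi, if_pos hj]
    by_contra hcon
    exact free_bond' hi hj ⟨c, Or.inl ⟨hc, fun h => hcon h.2⟩⟩
  · rw [if_neg hi, if_neg hj]; exact h1

theorem swQ_mem (hp : p ∈ DC S) (hq : q ∈ DC S) : swQ (Free S l x u p q) l p q ∈ DC S := by
  intro i j c hc
  unfold swQ
  have h1 := hp i j c hc
  have h2 := hq i j c hc
  by_cases hi : i ∈ Free S l x u p q <;> by_cases hj : j ∈ Free S l x u p q
  · rw [if_pos hi, if_pos hj]; omega
  · rw [if_pos hi, if_neg hj]
    by_contra hcon
    exact free_bond hi hj ⟨c, Or.inl ⟨hc, fun h => hcon (by have := h.2; omega)⟩⟩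
  · rw [if_neg hi, if_pos hj]
    by_contra hcon
    exact free_bond' hi hj ⟨c, Or.inl ⟨hc, fun h => hcon (by have := h.1; omega)⟩⟩
  · rw [if_neg hi, if_neg hj]; exact h2

theorem bond_sw (hp : p ∈ DC S) (hq : q ∈ DC S) (i j : I) :
    Bond S l (swP (Free S l x u p q) l p q) (swQ (Free S l x u p q) l p q) i j
      ↔ Bond S l p q i j := by
  set A := Free S l x u p q with hA
  have key : ∀ i j c, (i, j, c) ∈ S →
      ((swQ A l p q i + l ≤ swP A l p q j + c ∧ swP A l p q i ≤ swQ A l p q j + l + c)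
        ↔ (q i + l ≤ p j + c ∧ p i ≤ q j + l + c)) := by
    intro i j c hc
    have h1 := hp i j c hc
    have h2 := hq i j c hc
    unfold swP swQ
    by_cases hi : i ∈ A <;> by_cases hj : j ∈ A
    · rw [if_pos hi, if_pos hj, if_pos hi, if_pos hj]
      constructor
      · rintro ⟨h3, h4⟩; constructor <;> omega
      · rintro ⟨h3, h4⟩; constructor <;> omega
    · rw [if_pos hi, if_neg hj, if_pos hi, if_neg hj]
      constructor
      · intro _
        by_contra hcon
        exact free_bond hi hj ⟨c, Or.inl ⟨hc, hcon⟩⟩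
      · intro _; constructor <;> omega
    · rw [if_neg hi, if_pos hj, if_neg hi, if_pos hj]
      constructor
      · intro _
        by_contra hcon
        exact free_bond' hi hj ⟨c, Or.inl ⟨hc, hcon⟩⟩
      · intro _; constructor <;> omega
    · rw [if_neg hi, if_neg hj, if_neg hi, if_neg hj]
  unfold Bond
  constructor
  · rintro ⟨c, ⟨h1, h2⟩ | ⟨h1, h2⟩⟩
    · exact ⟨c, Or.inl ⟨h1, fun h => h2 ((key i j c h1).2 h)⟩⟩
    · exact ⟨c, Or.inr ⟨h1, fun h => h2 ((key j i c h1).2 h)⟩⟩
  · rintro ⟨c, ⟨h1, h2⟩ | ⟨h1, h2⟩⟩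
    · exact ⟨c, Or.inl ⟨h1, fun h => h2 ((key i j c h1).1 h)⟩⟩
    · exact ⟨c, Or.inr ⟨h1, fun h => h2 ((key j i c h1).1 h)⟩⟩

theorem free_sw (hp : p ∈ DC S) (hq : q ∈ DC S) :
    Free S l x u (swP (Free S l x u p q) l p q) (swQ (Free S l x u p q) l p q)
      = Free S l x u p q := by
  have : Bond S l (swP (Free S l x u p q) l p q) (swQ (Free S l x u p q) l p q)
      = Bond S l p q := by
    funext i j; exact propext (bond_sw hp hq i j)
  unfold Free at this ⊢
  rw [this]

theorem sw_sw (A : Set I) (l : ℤ) (p q : I → ℤ) :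
    swP A l (swP A l p q) (swQ A l p q) = p ∧ swQ A l (swP A l p q) (swQ A l p q) = q := by
  constructor <;> funext i <;> by_cases hi : i ∈ A <;> simp [swP, swQ, hi]

/-- Below the level, bonds do not lead above the level. -/
theorem bond_le (hp : p ∈ DC S) (hq : q ∈ DC S) {i j : I} (h : Bond S l p q i j)
    (hi : p i ≤ q i + l) : p j ≤ q j + l := by
  by_contra hj
  obtain ⟨c, ⟨h1, h2⟩ | ⟨h1, h2⟩⟩ := h
  · have a1 := hp i j c h1
    have a2 := hq i j c h1
    apply h2; constructor <;> omega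
  · have a1 := hp j i c h1
    have a2 := hq j i c h1
    apply h2; constructor <;> omega

theorem not_free_le (hp : p ∈ DC S) (hq : q ∈ DC S) (hx : p x ≤ q x + l) (hu : p u ≤ q u + l)
    {i : I} (hi : i ∉ Free S l x u p q) : p i ≤ q i + l := by
  have key : ∀ w j, p w ≤ q w + l → Relation.ReflTransGen (Bond S l p q) w j →
      p j ≤ q j + l := by
    intro w j hw h
    induction h with
    | refl => exact hw
    | tail _ h2 ih => exact bond_le hp hq h2 ih
  by_contra hcon
  exact hi ⟨fun h => hcon (key x i hx h), fun h => hcon (key u i hu h)⟩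

theorem x_not_free : x ∉ Free S l x u p q := fun h => h.1 Relation.ReflTransGen.refl

theorem u_not_free : u ∉ Free S l x u p q := fun h => h.2 Relation.ReflTransGen.refl

/-- The level of a pair. -/
def lev (x u : I) (p q : I → ℤ) : ℤ := p u - min (q x) (q u)

/-- The flipped pair. -/
noncomputable def flip (S : Set (I × I × ℤ)) (x u : I) (t : (I → ℤ) × (I → ℤ)) :
    (I → ℤ) × (I → ℤ) :=
  (swP (Free S (lev x u t.1 t.2) x u t.1 t.2) (lev x u t.1 t.2) t.1 t.2,
    swQ (Free S (lev x u t.1 t.2) x u t.1 t.2) (lev x u t.1 t.2) t.1 t.2)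

theorem flip_fst_x (t : (I → ℤ) × (I → ℤ)) : (flip S x u t).1 x = t.1 x := by
  change swP _ _ _ _ x = _
  unfold swP; rw [if_neg x_not_free]

theorem flip_snd_x (t : (I → ℤ) × (I → ℤ)) : (flip S x u t).2 x = t.2 x := by
  change swQ _ _ _ _ x = _
  unfold swQ; rw [if_neg x_not_free]

theorem flip_fst_u (t : (I → ℤ) × (I → ℤ)) : (flip S x u t).1 u = t.1 u := by
  change swP _ _ _ _ u = _
  unfold swP; rw [if_neg u_not_free]

theorem flip_snd_u (t : (I → ℤ) × (I → ℤ)) : (flip S x u t).2 u = t.2 u := by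
  change swQ _ _ _ _ u = _
  unfold swQ; rw [if_neg u_not_free]

theorem lev_flip (t : (I → ℤ) × (I → ℤ)) :
    lev x u (flip S x u t).1 (flip S x u t).2 = lev x u t.1 t.2 := by
  unfold lev
  rw [flip_snd_x, flip_snd_u, flip_fst_u]

theorem flip_flip {t : (I → ℤ) × (I → ℤ)} (hp : t.1 ∈ DC S) (hq : t.2 ∈ DC S) :
    flip S x u (flip S x u t) = t := by
  have h1 := lev_flip (S := S) (x := x) (u := u) t
  have h2 := free_sw (S := S) (l := lev x u t.1 t.2) (x := x) (u := u) hp hq
  have h3 := sw_sw (Free S (lev x u t.1 t.2) x u t.1 t.2) (lev x u t.1 t.2) t.1 t.2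
  refine Prod.ext ?_ ?_
  · change swP (Free S (lev x u (flip S x u t).1 (flip S x u t).2) x u (flip S x u t).1
      (flip S x u t).2) (lev x u (flip S x u t).1 (flip S x u t).2) (flip S x u t).1
      (flip S x u t).2 = t.1
    rw [h1]
    change swP (Free S (lev x u t.1 t.2) x u (swP _ _ _ _) (swQ _ _ _ _)) _ _ _ = _
    rw [h2]
    exact h3.1
  · change swQ (Free S (lev x u (flip S x u t).1 (flip S x u t).2) x u (flip S x u t).1
      (flip S x u t).2) (lev x u (flip S x u t).1 (flip S x u t).2) (flip S x u t).1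
      (flip S x u t).2 = t.2
    rw [h1]
    change swQ (Free S (lev x u t.1 t.2) x u (swP _ _ _ _) (swQ _ _ _ _)) _ _ _ = _
    rw [h2]
    exact h3.2

/-- The pairs `(p, q)` with `p` of type `x < y`, `q` of type `y < x`, both `0` at `o`, and with
`p + q` in `Sig`. -/
def Om (S : Set (I × I × ℤ)) (o x y : I) (Sig : Set (I → ℤ)) : Set ((I → ℤ) × (I → ℤ)) :=
  {t | t.1 ∈ DC S ∧ t.2 ∈ DC S ∧ t.1 o = 0 ∧ t.2 o = 0 ∧ t.1 x < t.1 y ∧ t.2 y < t.2 x ∧
    t.1 + t.2 ∈ Sig}

theorem Om_finite {o x y : I} {Sig : Set (I → ℤ)} (hfin : {f | f ∈ DC S ∧ f o = 0}.Finite) :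
    (Om S o x y Sig).Finite :=
  (hfin.prod hfin).subset fun _ ht => ⟨⟨ht.1, ht.2.2.1⟩, ⟨ht.2.1, ht.2.2.2.1⟩⟩

/-- **Flip inequality**, upper form. -/
theorem flip_ineq {y : I} {Sig B C : Set (I → ℤ)}
    (hfin : {f | f ∈ DC S ∧ f x = 0}.Finite)
    (hSig : ∀ s ∈ Sig, s x ≤ s y)
    (hB1 : ∀ p ∈ B, p x < p y → p x < p u)
    (hB2 : ∀ p ∈ B, p x < p y → y = u ∨ p y < p u)
    (hBC : ∀ p ∈ B, ∀ q ∈ C, p x < p y → q y < q x → ∃ z, p u < p z ∧ q z < q u ∧ q z < q x) :
    {t | t ∈ Om S x x y Sig ∧ t.2 ∈ C}.ncard ≤ {t | t ∈ Om S x x y Sig ∧ t.1 ∉ B}.ncard := by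
  classical
  have fin : {t | t ∈ Om S x x y Sig ∧ t.1 ∉ B}.Finite :=
    (Om_finite hfin).subset fun t ht => ht.1
  -- the main facts about flipped pairs
  have main : ∀ t ∈ Om S x x y Sig, t.1 ∈ B → t.2 ∈ C →
      flip S x u t ∈ Om S x x y Sig ∧ (flip S x u t).1 ∉ B ∧ (flip S x u t).2 ∉ C := by
    rintro ⟨p, q⟩ ⟨hp, hq, px, qx, pxy, qyx, hs⟩ hB hC
    dsimp only at hp hq px qx pxy qyx hs hB hC
    have hpu := hB1 p hB pxy
    have hl : lev x u p q = p u - min (q x) (q u) := rfl
    have lx : p x ≤ q x + lev x u p q := by rw [hl]; omega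
    have lu : p u ≤ q u + lev x u p q := by rw [hl]; omega
    have hnf := fun {i} hi => not_free_le (i := i) hp hq lx lu hi
    have f1 : ∀ i, (flip S x u (p, q)).1 i
        = if i ∈ Free S (lev x u p q) x u p q then q i + lev x u p q else p i := fun _ => rfl
    have f2 : ∀ i, (flip S x u (p, q)).2 i
        = if i ∈ Free S (lev x u p q) x u p q then p i - lev x u p q else q i := fun _ => rfl
    have e1 : (flip S x u (p, q)).1 x = p x := flip_fst_x (p, q)
    have e2 : (flip S x u (p, q)).2 x = q x := flip_snd_x (p, q)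
    have e3 : (flip S x u (p, q)).1 u = p u := flip_fst_u (p, q)
    have e4 : (flip S x u (p, q)).2 u = q u := flip_snd_u (p, q)
    have hsum : (flip S x u (p, q)).1 + (flip S x u (p, q)).2 = p + q := sw_sum' _ _ p q
    have hy2 : (flip S x u (p, q)).2 y < q x := by
      rw [f2]
      by_cases hy : y ∈ Free S (lev x u p q) x u p q
      · rw [if_pos hy]
        rcases hB2 p hB pxy with h | h
        · exact absurd (h ▸ hy) u_not_free
        · rw [hl]; omega
      · rw [if_neg hy]; exact qyx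
    have hy1 : p x < (flip S x u (p, q)).1 y := by
      have h1 : (flip S x u (p, q)).1 y + (flip S x u (p, q)).2 y = p y + q y := congrFun hsum y
      have h2 : p x + q x ≤ p y + q y := hSig _ hs
      omega
    have pxy' : (flip S x u (p, q)).1 x < (flip S x u (p, q)).1 y := by rw [e1]; exact hy1
    have qyx' : (flip S x u (p, q)).2 y < (flip S x u (p, q)).2 x := by rw [e2]; exact hy2
    refine ⟨⟨swP_mem hp hq, swQ_mem hp hq, ?_, ?_, pxy', qyx', ?_⟩, ?_, ?_⟩
    · exact e1.trans px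
    · exact e2.trans qx
    · rw [hsum]; exact hs
    · intro hB'
      obtain ⟨z, h1, h2, h3⟩ := hBC _ hB' q hC pxy' qyx
      rw [e3, f1] at h1
      by_cases hz : z ∈ Free S (lev x u p q) x u p q
      · rw [if_pos hz, hl] at h1; omega
      · rw [if_neg hz] at h1
        have := hnf hz
        rw [hl] at this; omega
    · intro hC'
      obtain ⟨z, h1, h2, h3⟩ := hBC p hB _ hC' pxy qyx'
      rw [e4, f2] at h2
      rw [e2, f2] at h3
      by_cases hz : z ∈ Free S (lev x u p q) x u p q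
      · rw [if_pos hz, hl] at h2 h3; omega
      · rw [if_neg hz] at h2 h3
        have := hnf hz
        rw [hl] at this; omega
  refine Set.ncard_le_ncard_of_injOn (fun t => if t.1 ∈ B then flip S x u t else t) ?_ ?_ fin
  · rintro t ⟨ht, hC⟩
    by_cases hB : t.1 ∈ B
    · obtain ⟨h1, h2, _⟩ := main t ht hB hC
      simp only [hB, if_true]
      exact ⟨h1, h2⟩
    · simp only [hB, if_false]
      exact ⟨ht, hB⟩
  · rintro t ⟨ht, hC⟩ t' ⟨ht', hC'⟩ h
    dsimp only at h
    by_cases hB : t.1 ∈ B <;> by_cases hB' : t'.1 ∈ B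
    · rw [if_pos hB, if_pos hB'] at h
      rw [← flip_flip (x := x) (u := u) ht.1 ht.2.1, h, flip_flip ht'.1 ht'.2.1]
    · rw [if_pos hB, if_neg hB'] at h
      exact absurd (h ▸ hC') (main t ht hB hC).2.2
    · rw [if_neg hB, if_pos hB'] at h
      exact absurd (h ▸ hC) (main t' ht' hB' hC').2.2
    · rw [if_neg hB, if_neg hB'] at h
      exact h

end Pool.Agent.H95.UC
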