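import Pool.Agent.H95.UC.Suff
import Pool.Agent.H19.UC.Nec

/-!
# Universal correlation with a simple relation: necessity for all `V`, and two cases of sufficiency
-/

namespace Pool.Agent.H95.UC

open Pool.Agent.H45.Corr

/-- The pair `(b, c)`, `x < y` in `b` and `y < x` in `c`, has a reversed triple, or both patterns
`P1` and `P2`. -/
def Good {T : Type} (x y : T) (b c : LinOrd T) : Prop :=
  H19.UC.RT x y b.1 c.1 ∨ (H19.UC.P1 x y b.1 c.1 ∧ H19.UC.P2 x y b.1 c.1)

theorem single_good {T : Type} {x y : T} {b c : LinOrd T} (hb : b.1 x y)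
    (hc : c.1 y x) (h : Good x y b c) :
    UnivCorr {L | L.1 x y} (({L | L.1 x y} \ {b}) ∪ {c}) :=
  single_suff hb hc h

/-- `P1` and `P2` together need five elements. -/
theorem card_of_P1_P2 {T : Type} [Finite T] {x y : T} {b c : LinOrd T} (hb : b.1 x y)
    (h1 : H19.UC.P1 x y b.1 c.1) (h2 : H19.UC.P2 x y b.1 c.1) : 5 ≤ Nat.card T := by
  classical
  have := Fintype.ofFinite T
  obtain ⟨z, u, _, _, h3⟩ := h1
  obtain ⟨v, w, h4, h5, _⟩ := h2
  have tr : ∀ {i j k : T}, b.1 i j → b.1 j k → b.1 i k := fun {i j k} => b.2.trans i j k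
  have ir : ∀ {i j : T}, b.1 i j → i ≠ j := by
    rintro i j h rfl; exact b.2.irrefl _ h
  -- `x < v < y` in `b`
  have hcard : ∀ s : Finset T, s.card = 5 → 5 ≤ Nat.card T := by
    intro s hs
    rw [Nat.card_eq_fintype_card, ← hs]
    exact Finset.card_le_univ s
  rcases h3 with ⟨h6, h7, _⟩ | ⟨h6, h7, _⟩
  · refine hcard {x, v, y, u, z} ?_
    have a1 := ir h4
    have a2 := ir hb
    have a3 := ir (tr hb h6)
    have a4 := ir (tr (tr hb h6) h7)
    have a5 := ir h5
    have a6 := ir (tr h5 h6)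
    have a7 := ir (tr (tr h5 h6) h7)
    have a8 := ir h6
    have a9 := ir (tr h6 h7)
    have a10 := ir h7
    simp [Finset.card_insert_of_notMem, *]
  · refine hcard {z, u, x, v, y} ?_
    have a1 := ir h6
    have a2 := ir (tr h6 h7)
    have a3 := ir (tr (tr h6 h7) h4)
    have a4 := ir (tr (tr h6 h7) hb)
    have a5 := ir h7
    have a6 := ir (tr h7 h4)
    have a7 := ir (tr h7 hb)
    have a8 := ir h4
    have a9 := ir hb
    have a10 := ir h5
    simp [Finset.card_insert_of_notMem, *]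

end Pool.Agent.H95.UC
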