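import Pool.Agent.H95.UC.Flip

/-!
# Mirror forms of the flip inequality
-/

namespace Pool.Agent.H95.UC

variable {I : Type} {S : Set (I × I × ℤ)} {x y u : I}

/-- Invariance under adding constants. -/
def Inv (A : Set (I → ℤ)) : Prop := ∀ f a, f ∈ A → (fun i => f i + a) ∈ A

theorem Inv.compl {A : Set (I → ℤ)} (h : Inv A) : Inv Aᶜ := by
  intro f a hf hfa
  apply hf
  have := h _ (-a) hfa
  simpa using this

theorem DC_inv : Inv (DC S) := by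
  intro f a hf i j c hc
  have := hf i j c hc
  dsimp only; omega

theorem Om_shift (o o' : I) {Sig B C : Set (I → ℤ)} (hSig : Inv Sig) (hB : Inv B) (hC : Inv C) :
    {t | t ∈ Om S o x y Sig ∧ t.1 ∈ B ∧ t.2 ∈ C}.ncard
      = {t | t ∈ Om S o' x y Sig ∧ t.1 ∈ B ∧ t.2 ∈ C}.ncard := by
  refine Set.ncard_congr (fun t _ => (fun i => t.1 i + -t.1 o', fun i => t.2 i + -t.2 o'))
    ?_ ?_ ?_
  · rintro ⟨p, q⟩ ⟨⟨h1, h2, h3, h4, h5, h6, h7⟩, h8, h9⟩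
    dsimp only at *
    refine ⟨⟨DC_inv _ _ h1, DC_inv _ _ h2, by simp, by simp, by dsimp only; omega,
      by dsimp only; omega, ?_⟩, hB _ _ h8, hC _ _ h9⟩
    have := hSig _ (-p o' + -q o') h7
    convert this using 1
    funext i
    simp only [Pi.add_apply]; ring
  · rintro ⟨p, q⟩ ⟨p', q'⟩ ht ht' h
    have h3 : p o = 0 := ht.1.2.2.1
    have h4 : q o = 0 := ht.1.2.2.2.1
    have h3' : p' o = 0 := ht'.1.2.2.1
    have h4' : q' o = 0 := ht'.1.2.2.2.1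
    rw [Prod.mk.injEq] at h
    obtain ⟨e1, e2⟩ := h
    have a1 := congrFun e1 o
    have a2 := congrFun e2 o
    dsimp only at a1 a2
    refine Prod.ext ?_ ?_
    · funext i
      have := congrFun e1 i
      dsimp only at this ⊢; omega
    · funext i
      have := congrFun e2 i
      dsimp only at this ⊢; omega
  · rintro ⟨p, q⟩ ⟨⟨h1, h2, h3, h4, h5, h6, h7⟩, h8, h9⟩
    dsimp only at *
    refine ⟨(fun i => p i + -p o, fun i => q i + -q o), ⟨⟨DC_inv _ _ h1, DC_inv _ _ h2, by simp,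
      by simp, by dsimp only; omega, by dsimp only; omega, ?_⟩, hB _ _ h8, hC _ _ h9⟩, ?_⟩
    · have := hSig _ (-p o + -q o) h7
      convert this using 1
      funext i
      simp only [Pi.add_apply]; ring
    · refine Prod.ext ?_ ?_
      · funext i; dsimp only; omega
      · funext i; dsimp only; omega

/-- The reversed system of constraints. -/
def revS (S : Set (I × I × ℤ)) : Set (I × I × ℤ) := {t | (t.2.1, t.1, t.2.2) ∈ S}

theorem neg_mem_DC {f : I → ℤ} : -f ∈ DC S ↔ f ∈ DC (revS S) := by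
  constructor
  · intro h i j c hc
    have := h j i c hc
    simp only [Pi.neg_apply] at this
    omega
  · intro h i j c hc
    have := h j i c hc
    simp only [Pi.neg_apply]
    omega

theorem revS_revS : revS (revS S) = S := rfl

/-- Reversal of pairs. -/
theorem Om_rev (o : I) {Sig B C : Set (I → ℤ)} :
    {t | t ∈ Om S o x y Sig ∧ t.1 ∈ B ∧ t.2 ∈ C}.ncard
      = {t | t ∈ Om (revS S) o y x {s | -s ∈ Sig} ∧ t.1 ∈ {s | -s ∈ B}
          ∧ t.2 ∈ {s | -s ∈ C}}.ncard := by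
  refine Set.ncard_congr (fun t _ => (-t.1, -t.2)) ?_ ?_ ?_
  · rintro ⟨p, q⟩ ⟨⟨h1, h2, h3, h4, h5, h6, h7⟩, h8, h9⟩
    dsimp only at *
    refine ⟨⟨?_, ?_, by simp [h3], by simp [h4], by simpa using h5, by simpa using h6, ?_⟩, ?_, ?_⟩
    · exact neg_mem_DC.1 (by simpa using h1)
    · exact neg_mem_DC.1 (by simpa using h2)
    · change -(-p + -q) ∈ Sig
      have : -(-p + -q) = p + q := by ring
      rw [this]; exact h7
    · change - -p ∈ B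
      rw [neg_neg]; exact h8
    · change - -q ∈ C
      rw [neg_neg]; exact h9
  · rintro ⟨p, q⟩ ⟨p', q'⟩ _ _ h
    rw [Prod.mk.injEq] at h
    exact Prod.ext (neg_injective h.1) (neg_injective h.2)
  · rintro ⟨p, q⟩ ⟨⟨h1, h2, h3, h4, h5, h6, h7⟩, h8, h9⟩
    dsimp only at *
    refine ⟨(-p, -q), ⟨⟨neg_mem_DC.2 h1, neg_mem_DC.2 h2, by simp [h3], by simp [h4],
      by simpa using h5, by simpa using h6, ?_⟩, h8, h9⟩, by simp⟩
    change -p + -q ∈ Sig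
    have : -p + -q = -(p + q) := by ring
    rw [this]; exact h7

/-- Swapping the two components. -/
theorem Om_comm (o : I) {Sig B C : Set (I → ℤ)} :
    {t | t ∈ Om S o x y Sig ∧ t.1 ∈ B ∧ t.2 ∈ C}.ncard
      = {t | t ∈ Om S o y x Sig ∧ t.1 ∈ C ∧ t.2 ∈ B}.ncard := by
  refine Set.ncard_congr (fun t _ => (t.2, t.1)) ?_ ?_ ?_
  · rintro ⟨p, q⟩ ⟨⟨h1, h2, h3, h4, h5, h6, h7⟩, h8, h9⟩
    dsimp only at *
    exact ⟨⟨h2, h1, h4, h3, h6, h5, by rw [add_comm]; exact h7⟩, h9, h8⟩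
  · rintro ⟨p, q⟩ ⟨p', q'⟩ _ _ h
    rw [Prod.mk.injEq] at h
    exact Prod.ext h.2 h.1
  · rintro ⟨p, q⟩ ⟨⟨h1, h2, h3, h4, h5, h6, h7⟩, h8, h9⟩
    dsimp only at *
    exact ⟨(q, p), ⟨⟨h2, h1, h4, h3, h6, h5, by rw [add_comm]; exact h7⟩, h9, h8⟩, rfl⟩

/-- Upper witness condition at `u` for labellings. -/
def UpL (x y u : I) (B C : Set (I → ℤ)) : Prop :=
  ∀ p ∈ B, p x < p y → (y = u ∨ p y < p u) ∧
    ∀ q ∈ C, q y < q x → ∃ z, p u < p z ∧ q z < q u ∧ q z < q x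

/-- Lower witness condition at `u` for labellings. -/
def DnL (x y u : I) (B C : Set (I → ℤ)) : Prop :=
  ∀ p ∈ B, p x < p y → (u = x ∨ p u < p x) ∧
    ∀ q ∈ C, q y < q x → ∃ z, p z < p u ∧ q u < q z ∧ q y < q z

/-- Flip inequality, upper form, in terms of three sets. -/
theorem ineq_up {Sig B C : Set (I → ℤ)} (hfin : {f | f ∈ DC S ∧ f x = 0}.Finite)
    (hSig : ∀ s ∈ Sig, s x ≤ s y) (h : UpL x y u B C) :
    {t | t ∈ Om S x x y Sig ∧ t.1 ∈ Set.univ ∧ t.2 ∈ C}.ncard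
      ≤ {t | t ∈ Om S x x y Sig ∧ t.1 ∈ Bᶜ ∧ t.2 ∈ Set.univ}.ncard := by
  have := flip_ineq (S := S) (x := x) (u := u) (y := y) (Sig := Sig) (B := B) (C := C) hfin hSig
    (fun p hp hxy => ?_) (fun p hp hxy => (h p hp hxy).1)
    (fun p hp q hq hxy hyx => (h p hp hxy).2 q hq hyx)
  · simpa using this
  · rcases (h p hp hxy).1 with h1 | h1
    · rw [← h1]; exact hxy
    · exact hxy.trans h1

/-- Flip inequality, lower form. -/
theorem ineq_dn {Sig B C : Set (I → ℤ)} (hfin : ∀ o, {f | f ∈ DC S ∧ f o = 0}.Finite)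
    (iSig : Inv Sig) (iB : Inv B) (iC : Inv C)
    (hSig : ∀ s ∈ Sig, s x ≤ s y) (h : DnL x y u B C) :
    {t | t ∈ Om S x x y Sig ∧ t.1 ∈ Set.univ ∧ t.2 ∈ C}.ncard
      ≤ {t | t ∈ Om S x x y Sig ∧ t.1 ∈ Bᶜ ∧ t.2 ∈ Set.univ}.ncard := by
  have iu : Inv (Set.univ : Set (I → ℤ)) := fun _ _ _ => Set.mem_univ _
  rw [Om_shift x y iSig iu iC, Om_shift x y iSig iB.compl iu,
    Om_rev y (B := Set.univ) (C := C), Om_rev y (B := Bᶜ) (C := Set.univ)]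
  have hfin' : {f | f ∈ DC (revS S) ∧ f y = 0}.Finite := by
    refine ((hfin y).image (fun f => -f)).subset ?_
    rintro f ⟨h1, h2⟩
    exact ⟨-f, ⟨neg_mem_DC.2 h1, by simp [h2]⟩, by simp⟩
  have := ineq_up (S := revS S) (x := y) (y := x) (u := u) (Sig := {s | -s ∈ Sig})
    (B := {s | -s ∈ B}) (C := {s | -s ∈ C}) hfin' ?_ ?_
  · simpa using this
  · intro s hs
    have := hSig _ hs
    simp only [Pi.neg_apply] at this
    omega
  · intro p hp hxy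
    obtain ⟨h1, h2⟩ := h _ hp (by simpa using hxy)
    refine ⟨?_, ?_⟩
    · rcases h1 with h1 | h1
      · exact Or.inl h1.symm
      · exact Or.inr (by simpa using h1)
    · intro q hq hyx
      obtain ⟨z, a1, a2, a3⟩ := h2 _ hq (by simpa using hyx)
      exact ⟨z, by simpa using a1, by simpa using a2, by simpa using a3⟩

/-- Total inequality from the two halves. -/
theorem total [Finite I] {B C : Set (I → ℤ)} (hfin : ∀ o, {f | f ∈ DC S ∧ f o = 0}.Finite)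
    (iB : Inv B) (iC : Inv C)
    (h1 : (∃ u, UpL x y u B C) ∨ (∃ u, DnL x y u B C))
    (h2 : (∃ u, UpL y x u C B) ∨ (∃ u, DnL y x u C B)) :
    {f | f ∈ DC S ∧ f x = 0 ∧ f x < f y ∧ f ∈ B}.ncard
        * {f | f ∈ DC S ∧ f x = 0 ∧ f y < f x ∧ f ∈ C}.ncard
      ≤ {f | f ∈ DC S ∧ f x = 0 ∧ f x < f y ∧ f ∉ B}.ncard
        * {f | f ∈ DC S ∧ f x = 0 ∧ f y < f x ∧ f ∉ C}.ncard := by
  classical
  have iu : Inv (Set.univ : Set (I → ℤ)) := fun _ _ _ => Set.mem_univ _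
  set S1 : Set (I → ℤ) := {s | s x ≤ s y} with hS1
  set S2 : Set (I → ℤ) := {s | s y < s x} with hS2
  have iS1 : Inv S1 := by intro f a hf; simp only [hS1, Set.mem_ofPred_eq] at hf ⊢; omega
  have iS2 : Inv S2 := by intro f a hf; simp only [hS2, Set.mem_ofPred_eq] at hf ⊢; omega
  have k1 : {t | t ∈ Om S x x y S1 ∧ t.1 ∈ Set.univ ∧ t.2 ∈ C}.ncard
      ≤ {t | t ∈ Om S x x y S1 ∧ t.1 ∈ Bᶜ ∧ t.2 ∈ Set.univ}.ncard := by
    rcases h1 with ⟨u, h⟩ | ⟨u, h⟩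
    · exact ineq_up (hfin x) (fun s hs => hs) h
    · exact ineq_dn hfin iS1 iB iC (fun s hs => hs) h
  have k2 : {t | t ∈ Om S x x y S2 ∧ t.1 ∈ B ∧ t.2 ∈ Set.univ}.ncard
      ≤ {t | t ∈ Om S x x y S2 ∧ t.1 ∈ Set.univ ∧ t.2 ∈ Cᶜ}.ncard := by
    rw [Om_comm x (B := B) (C := Set.univ), Om_comm x (B := Set.univ) (C := Cᶜ),
      Om_shift x y iS2 iu iB, Om_shift x y iS2 iC.compl iu]
    rcases h2 with ⟨u, h⟩ | ⟨u, h⟩
    · exact ineq_up (hfin y) (fun s hs => le_of_lt hs) h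
    · exact ineq_dn hfin iS2 iC iB (fun s hs => le_of_lt hs) h
  -- splitting
  have fin : ∀ Sig : Set (I → ℤ), (Om S x x y Sig).Finite := fun Sig => Om_finite (hfin x)
  have split1 : ∀ (P Q P' : Set (I → ℤ)) (Sig : Set (I → ℤ)),
      {t | t ∈ Om S x x y Sig ∧ t.1 ∈ P ∧ t.2 ∈ Q}.ncard
        = {t | t ∈ Om S x x y Sig ∧ t.1 ∈ P ∩ P' ∧ t.2 ∈ Q}.ncard
          + {t | t ∈ Om S x x y Sig ∧ t.1 ∈ P ∩ P'ᶜ ∧ t.2 ∈ Q}.ncard := by
    intro P Q P' Sig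
    rw [← Set.ncard_union_eq _ ((fin Sig).subset fun t ht => ht.1)
      ((fin Sig).subset fun t ht => ht.1)]
    · congr 1
      ext t
      simp only [Set.mem_union, Set.mem_ofPred_eq, Set.mem_inter_iff, Set.mem_compl_iff]
      tauto
    · rw [Set.disjoint_left]
      rintro t ⟨_, h3, _⟩ ⟨_, h4, _⟩
      exact h4.2 h3.2
  have split2 : ∀ (P Q Q' : Set (I → ℤ)) (Sig : Set (I → ℤ)),
      {t | t ∈ Om S x x y Sig ∧ t.1 ∈ P ∧ t.2 ∈ Q}.ncard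
        = {t | t ∈ Om S x x y Sig ∧ t.1 ∈ P ∧ t.2 ∈ Q ∩ Q'}.ncard
          + {t | t ∈ Om S x x y Sig ∧ t.1 ∈ P ∧ t.2 ∈ Q ∩ Q'ᶜ}.ncard := by
    intro P Q Q' Sig
    rw [← Set.ncard_union_eq _ ((fin Sig).subset fun t ht => ht.1)
      ((fin Sig).subset fun t ht => ht.1)]
    · congr 1
      ext t
      simp only [Set.mem_union, Set.mem_ofPred_eq, Set.mem_inter_iff, Set.mem_compl_iff]
      tauto
    · rw [Set.disjoint_left]
      rintro t ⟨_, _, h3⟩ ⟨_, _, h4⟩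
      exact h4.2 h3.2
  have split3 : ∀ (P Q : Set (I → ℤ)),
      {t | t ∈ Om S x x y Set.univ ∧ t.1 ∈ P ∧ t.2 ∈ Q}.ncard
        = {t | t ∈ Om S x x y S1 ∧ t.1 ∈ P ∧ t.2 ∈ Q}.ncard
          + {t | t ∈ Om S x x y S2 ∧ t.1 ∈ P ∧ t.2 ∈ Q}.ncard := by
    intro P Q
    rw [← Set.ncard_union_eq _ ((fin S1).subset fun t ht => ht.1)
      ((fin S2).subset fun t ht => ht.1)]
    · congr 1
      ext t
      simp only [Set.mem_union, Set.mem_ofPred_eq, Om, hS1, hS2, Set.mem_univ, and_true,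
        Pi.add_apply]
      constructor
      · rintro ⟨⟨a1, a2, a3, a4, a5, a6⟩, a7, a8⟩
        rcases le_or_gt (t.1 x + t.2 x) (t.1 y + t.2 y) with h | h
        · exact Or.inl ⟨⟨a1, a2, a3, a4, a5, a6, h⟩, a7, a8⟩
        · exact Or.inr ⟨⟨a1, a2, a3, a4, a5, a6, h⟩, a7, a8⟩
      · rintro (⟨⟨a1, a2, a3, a4, a5, a6, h⟩, a7, a8⟩ | ⟨⟨a1, a2, a3, a4, a5, a6, h⟩, a7, a8⟩)
        · exact ⟨⟨a1, a2, a3, a4, a5, a6⟩, a7, a8⟩
        · exact ⟨⟨a1, a2, a3, a4, a5, a6⟩, a7, a8⟩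
    · rw [Set.disjoint_left]
      rintro t ⟨h3, _⟩ ⟨h4, _⟩
      have a1 : (t.1 + t.2) x ≤ (t.1 + t.2) y := h3.2.2.2.2.2.2
      have a2 : (t.1 + t.2) y < (t.1 + t.2) x := h4.2.2.2.2.2.2
      omega
  have prod : ∀ P Q : Set (I → ℤ), {t | t ∈ Om S x x y Set.univ ∧ t.1 ∈ P ∧ t.2 ∈ Q}.ncard
      = {f | f ∈ DC S ∧ f x = 0 ∧ f x < f y ∧ f ∈ P}.ncard
        * {f | f ∈ DC S ∧ f x = 0 ∧ f y < f x ∧ f ∈ Q}.ncard := by
    intro P Q
    rw [← Set.ncard_prod]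
    congr 1
    ext t
    simp only [Om, Set.mem_ofPred_eq, Set.mem_prod, Set.mem_univ, and_true]
    tauto
  -- the number with `q ∈ C` is at most the number with `p ∉ B`
  have k3 : {t | t ∈ Om S x x y S2 ∧ t.1 ∈ Set.univ ∧ t.2 ∈ C}.ncard
      ≤ {t | t ∈ Om S x x y S2 ∧ t.1 ∈ Bᶜ ∧ t.2 ∈ Set.univ}.ncard := by
    have e1 := split1 Set.univ Set.univ B S2
    have e2 := split2 Set.univ Set.univ C S2
    simp only [Set.univ_inter] at e1 e2
    omega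
  have k4 : {t | t ∈ Om S x x y Set.univ ∧ t.1 ∈ Set.univ ∧ t.2 ∈ C}.ncard
      ≤ {t | t ∈ Om S x x y Set.univ ∧ t.1 ∈ Bᶜ ∧ t.2 ∈ Set.univ}.ncard := by
    rw [split3, split3]; omega
  have e1 := split1 Set.univ C B Set.univ
  have e2 := split2 Bᶜ Set.univ C Set.univ
  simp only [Set.univ_inter] at e1 e2
  have k5 : {t | t ∈ Om S x x y Set.univ ∧ t.1 ∈ B ∧ t.2 ∈ C}.ncard
      ≤ {t | t ∈ Om S x x y Set.univ ∧ t.1 ∈ Bᶜ ∧ t.2 ∈ Cᶜ}.ncard := by omega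
  rw [prod, prod] at k5
  exact k5

end Pool.Agent.H95.UC
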